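import Mathlib

set_option autoImplicit false

open Module Set

namespace Pool.Agent.Results.MP_745574_co.Example

/-- real Euclidean space -/
abbrev E (m : ℕ) := EuclideanSpace ℝ (Fin m)

/-- `P` is a convex polytope of dimension `d` -/
def IsPolytope {m : ℕ} (d : ℕ) (P : Set (E m)) : Prop :=
  (∃ S : Set (E m), S.Finite ∧ S.Nonempty ∧ P = convexHull ℝ S) ∧ finrank ℝ (vectorSpan ℝ P) = d

/-- the complex of all faces of `P` (with `∅` and `P`) -/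
abbrev Face {m : ℕ} (P : Set (E m)) : Set (Set (E m)) := {F | IsExposed ℝ P F}

/-- the `k`-skeleton: the faces of dimension at most `k` -/
abbrev Skel {m : ℕ} (k : ℕ) (P : Set (E m)) : Set (Set (E m)) :=
  {F | IsExposed ℝ P F ∧ finrank ℝ (vectorSpan ℝ F) ≤ k}

/-- combinatorial equivalences: bijections preserving inclusion in both directions -/
abbrev CE {m m' : ℕ} (A : Set (Set (E m))) (B : Set (Set (E m'))) := A ≃o B

/-- every self-equivalence of the `k`-skeleton extends to the complex of all faces -/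
def Extends {m : ℕ} (k : ℕ) (Q : Set (E m)) : Prop :=
  ∀ φ : CE (Skel k Q) (Skel k Q), ∃ Φ : CE (Face Q) (Face Q),
    ∀ F : Skel k Q, (Φ ⟨F.1, F.2.1⟩).1 = (φ F).1

section
variable {n : ℕ} (v : Fin n → Fin 4 → ℤ)

noncomputable def pt (i : Fin n) : E 4 := WithLp.toLp 2 fun k => (v i k : ℝ)

def hull (S : Finset (Fin n)) : Set (E 4) := convexHull ℝ (pt v '' S)

def Good (S : Finset (Fin n)) : Prop :=
  S = ∅ ∨ ∃ l : StrongDual ℝ (E 4), ∀ i, i ∈ S ↔ ∀ j, l (pt v j) ≤ l (pt v i)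

variable {v}

lemma le_of_mem {l : StrongDual ℝ (E 4)} {S : Finset (Fin n)} {M : ℝ} (h : ∀ i ∈ S, l (pt v i) ≤ M)
    {x : E 4} (hx : x ∈ hull v S) : l x ≤ M :=
  convexHull_min (t := {x | l x ≤ M}) (by rintro _ ⟨i, hi, rfl⟩; exact h i hi)
    (convex_halfSpace_le l.isLinear M) hx

lemma face_eq [NeZero n] {l : StrongDual ℝ (E 4)} {S : Finset (Fin n)}
    (h : ∀ i, i ∈ S ↔ ∀ j, l (pt v j) ≤ l (pt v i)) :
    hull v S = {x ∈ hull v Finset.univ | ∀ y ∈ hull v Finset.univ, l y ≤ l x} := by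
  obtain ⟨i0, -, h0⟩ := Finset.exists_max_image Finset.univ (fun i => l (pt v i)) ⟨0, by simp⟩
  ext x
  constructor
  · intro hx
    refine ⟨convexHull_mono (image_mono (by simp)) hx, fun y hy => (le_of_mem h0 hy).trans ?_⟩
    have := le_of_mem (l := -l) (M := -l (pt v i0)) (fun i hi => by simpa using (h i).1 hi i0) hx
    simpa using this
  rintro ⟨hx, hm⟩
  obtain ⟨ι, _, w, z, hw, h1, hz, rfl⟩ := mem_convexHull_iff_exists_fintype.1 hx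
  have h2 := hm _ (subset_convexHull ℝ _ ⟨i0, by simp, rfl⟩)
  have h3 : ∀ i, 0 ≤ w i * (l (pt v i0) - l (z i)) := fun i =>
    mul_nonneg (hw i) (sub_nonneg.2 (le_of_mem h0 (subset_convexHull ℝ _ (hz i))))
  have h4 : ∑ i, w i * (l (pt v i0) - l (z i)) = 0 := by
    refine le_antisymm ?_ (Finset.sum_nonneg fun i _ => h3 i)
    simp only [map_sum, map_smul, smul_eq_mul] at h2
    simp only [mul_sub, Finset.sum_sub_distrib, ← Finset.sum_mul, h1]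
    linarith
  rw [Finset.sum_eq_zero_iff_of_nonneg fun i _ => h3 i] at h4
  classical
  rw [← Finset.sum_filter_of_ne (p := fun i => w i ≠ 0) fun i _ h e => h (by simp [e])]
  refine (convex_convexHull ℝ _).sum_mem (fun i _ => hw i) (by rw [Finset.sum_filter_ne_zero, h1])
    fun i hi => subset_convexHull ℝ _ ?_
  obtain ⟨j, -, e⟩ := hz i
  have := (mul_eq_zero.1 (h4 i (by simp))).resolve_left (Finset.mem_filter.1 hi).2
  exact ⟨j, (h j).2 fun k => by have := h0 k (by simp); rw [e]; linarith, e⟩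

lemma exposed_iff [NeZero n] (F : Set (E 4)) :
    IsExposed ℝ (hull v Finset.univ) F ↔ ∃ S, Good v S ∧ hull v S = F := by
  classical
  constructor
  · intro h
    rcases F.eq_empty_or_nonempty with rfl | hF
    · exact ⟨∅, Or.inl rfl, by simp [hull]⟩
    obtain ⟨l, rfl⟩ := h hF
    exact ⟨Finset.univ.filter fun i => ∀ j, l (pt v j) ≤ l (pt v i), Or.inr ⟨l, by simp⟩,
      face_eq (by simp)⟩
  rintro ⟨S, rfl | ⟨l, hl⟩, rfl⟩
  · simpa [hull] using isExposed_empty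
  · exact fun _ => ⟨l, face_eq hl⟩

lemma hull_le [NeZero n] {S T : Finset (Fin n)} (hT : Good v T) : hull v S ⊆ hull v T ↔ S ⊆ T := by
  refine ⟨fun h i hi => ?_, fun h => convexHull_mono (image_mono h)⟩
  have := h (subset_convexHull ℝ _ ⟨i, hi, rfl⟩)
  rcases hT with rfl | ⟨l, hl⟩
  · simp [hull] at this
  · rw [face_eq hl] at this
    exact (hl i).2 fun j => this.2 _ (subset_convexHull ℝ _ ⟨j, by simp, rfl⟩)

lemma iso [NeZero n] (p : Set (E 4) → Prop) (q : Finset (Fin n) → Prop)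
    (h : ∀ F, p F ↔ ∃ S, q S ∧ hull v S = F) (hq : ∀ S, q S → Good v S) :
    Nonempty ({S // q S} ≃o {F // p F}) :=
  ⟨RelIso.ofSurjective (OrderEmbedding.ofMapLEIff (fun S => ⟨hull v S.1, (h _).2 ⟨_, S.2, rfl⟩⟩)
    fun _ T => hull_le (hq _ T.2)) fun F => by
      obtain ⟨S, hS, e⟩ := (h _).1 F.2
      exact ⟨⟨S, hS⟩, Subtype.ext e⟩⟩

lemma span_hull (S : Finset (Fin n)) : vectorSpan ℝ (hull v S) = vectorSpan ℝ (pt v '' S) := by
  rw [← direction_affineSpan, hull, affineSpan_convexHull, direction_affineSpan]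

lemma dim_iff (h : ∀ i j k, i ≠ j → i ≠ k → j ≠ k → ∃ a b,
    (v j a - v i a) * (v k b - v i b) ≠ (v j b - v i b) * (v k a - v i a)) (S : Finset (Fin n)) :
    finrank ℝ (vectorSpan ℝ (hull v S)) ≤ 1 ↔ S.card ≤ 2 := by
  rw [span_hull, ← collinear_iff_finrank_le_one]
  constructor
  · intro hc
    by_contra hS
    obtain ⟨i, j, k, hi, hj, hk, h1, h2, h3⟩ := Finset.two_lt_card_iff.1 (not_le.1 hS)
    obtain ⟨a, b, hab⟩ := h i j k h1 h2 h3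
    obtain ⟨u, hu⟩ := (collinear_iff_of_mem (mem_image_of_mem _ hi)).1 hc
    obtain ⟨r, hr⟩ := hu _ (mem_image_of_mem _ hj)
    obtain ⟨s, hs⟩ := hu _ (mem_image_of_mem _ hk)
    have e1 : ∀ c, (v j c : ℝ) = r * u c + v i c := fun c => congrArg (fun x : E 4 => x c) hr
    have e2 : ∀ c, (v k c : ℝ) = s * u c + v i c := fun c => congrArg (fun x : E 4 => x c) hs
    refine hab (Int.cast_injective (α := ℝ) ?_)
    push_cast
    rw [e1, e1, e2, e2]; ring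
  intro hS
  rcases (by omega : S.card = 0 ∨ S.card = 1 ∨ S.card = 2) with h | h | h
  · simp [Finset.card_eq_zero.1 h, collinear_empty]
  · obtain ⟨a, rfl⟩ := Finset.card_eq_one.1 h
    simp [collinear_singleton]
  · obtain ⟨a, b, -, rfl⟩ := Finset.card_eq_two.1 h
    simp [image_insert_eq, collinear_pair]

lemma good_of (c : Fin 4 → ℤ) {S : Finset (Fin n)} (h : ∀ i, i ∈ S ↔ ∀ j, c ⬝ᵥ v j ≤ c ⬝ᵥ v i) :
    Good v S := by
  refine Or.inr ⟨innerSL ℝ (WithLp.toLp 2 fun k => (c k : ℝ)), fun i => ?_⟩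
  have : ∀ j, innerSL ℝ (WithLp.toLp 2 fun k => (c k : ℝ) : E 4) (pt v j) = ((c ⬝ᵥ v j : ℤ) : ℝ) := by
    intro j; simp [pt, PiLp.inner_apply, dotProduct, mul_comm]
  simp only [this, Int.cast_le, h]

lemma not_good (w : Fin n → ℤ) {S : Finset (Fin n)} {i0 : Fin n} (h0 : i0 ∈ S) (h1 : ∑ i, w i = 0)
    (h2 : ∀ k, ∑ i, w i * v i k = 0) (h3 : ∀ i, i ∉ S → w i ≤ 0) (h4 : ∃ i, i ∉ S ∧ w i < 0) :
    ¬ Good v S := by
  rintro (rfl | ⟨l, hl⟩)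
  · simp at h0
  have e : ∑ i, (w i : ℝ) • pt v i = 0 := by
    ext k; simp only [pt, WithLp.ofLp_sum, Finset.sum_apply]; simpa using congrArg (Int.cast (R := ℝ)) (h2 k)
  have e2 : ∑ i, (w i : ℝ) * (l (pt v i0) - l (pt v i)) = 0 := by
    have := congrArg l e
    simp only [map_sum, map_smul, smul_eq_mul, map_zero] at this
    simp only [mul_sub, Finset.sum_sub_distrib, ← Finset.sum_mul, this, ← Int.cast_sum, h1]
    simp
  obtain ⟨i, hi, hw⟩ := h4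
  have m := (hl i0).1 h0
  refine absurd e2 (ne_of_lt ?_)
  refine (Finset.sum_lt_sum (g := fun _ => 0) (fun j _ => ?_) ⟨i, by simp, ?_⟩).trans_eq (by simp)
  · by_cases hj : j ∈ S
    · rw [le_antisymm (m j) ((hl j).1 hj i0)]; simp
    · exact mul_nonpos_of_nonpos_of_nonneg (by exact_mod_cast h3 j hj) (sub_nonneg.2 (m j))
  · refine mul_neg_of_neg_of_pos (by exact_mod_cast hw) (sub_pos.2 (lt_of_not_ge fun h => hi ?_))
    exact (hl i).2 fun j => (m j).trans h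

lemma poly (v : Fin 10 → Fin 4 → ℤ) (A : Fin 4 → Fin 4 → ℤ) (D : ℤ) (hD : D ≠ 0)
    (h : ∀ k m, ∑ s : Fin 4, A k s * (v (s.succ.castLE (by simp)) m - v 0 m) = if m = k then D else 0) :
    IsPolytope 4 (hull v Finset.univ) := by
  refine ⟨⟨pt v '' (Finset.univ : Finset (Fin 10)), toFinite _, ⟨pt v 0, 0, by simp, rfl⟩, rfl⟩, ?_⟩
  have : vectorSpan ℝ (hull v Finset.univ) = ⊤ := by
    rw [span_hull, eq_top_iff, ← (EuclideanSpace.basisFun (Fin 4) ℝ).toBasis.span_eq, Submodule.span_le]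
    rintro _ ⟨k, rfl⟩
    refine (Submodule.smul_mem_iff _ (show (D : ℝ) ≠ 0 by exact_mod_cast hD)).1 ?_
    have : (D : ℝ) • (EuclideanSpace.basisFun (Fin 4) ℝ).toBasis k =
        ∑ s : Fin 4, (A k s : ℝ) • (pt v (s.succ.castLE (by simp)) -ᵥ pt v 0) := by
      ext m
      have := congrArg (Int.cast (R := ℝ)) (h k m)
      simp only [pt, WithLp.ofLp_sum, Finset.sum_apply]
      push_cast at this
      simpa [Pi.single_apply] using this.symm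
    rw [this]
    exact Submodule.sum_mem _ fun s _ => Submodule.smul_mem _ _
      (vsub_mem_vectorSpan ℝ ⟨_, by simp, rfl⟩ ⟨_, by simp, rfl⟩)
  rw [this]; simp

lemma perm {p q : Finset (Fin n) → Prop} (p0 : p ∅) (q0 : q ∅) (p1 : ∀ i, p {i}) (q1 : ∀ i, q {i})
    (φ : {S // p S} ≃o {S // q S}) : ∃ σ : Fin n → Fin n, Function.Injective σ ∧
      (∀ S : {S // p S}, (φ S).1 = S.1.image σ) ∧ ∀ S, q (S.image σ) → p S := by
  have h0 : φ ⟨∅, p0⟩ = ⟨∅, q0⟩ := le_antisymm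
    (φ.le_symm_apply.1 (Finset.empty_subset _)) (Finset.empty_subset _)
  have h1 : ∀ i, ∃ j, φ ⟨{i}, p1 i⟩ = ⟨{j}, q1 j⟩ := fun i => by
    obtain ⟨j, hj⟩ : (φ ⟨{i}, p1 i⟩).1.Nonempty := Finset.nonempty_iff_ne_empty.2 fun e => by
      simpa using φ.injective ((Subtype.ext e).trans h0.symm)
    have : φ.symm ⟨{j}, q1 j⟩ ≤ ⟨{i}, p1 i⟩ := φ.symm_apply_le.2 (Finset.singleton_subset_iff.2 hj)
    rcases Finset.subset_singleton_iff.1 this with e | e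
    · have := φ.symm_apply_eq.1 (Subtype.ext e : _ = (⟨∅, p0⟩ : {S // p S}))
      simp [h0] at this
    · exact ⟨j, (φ.symm_apply_eq.1 (Subtype.ext e)).symm⟩
  choose σ hσ using h1
  have hi : Function.Injective σ := fun i j e => by
    simpa using φ.injective (show φ ⟨{i}, p1 i⟩ = φ ⟨{j}, p1 j⟩ by rw [hσ, hσ]; simp [e])
  have key : ∀ S : {S // p S}, (φ S).1 = S.1.image σ := fun S => by
    ext j
    obtain ⟨i, rfl⟩ := Finite.injective_iff_surjective.1 hi j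
    rw [hi.mem_finset_image, ← Finset.singleton_subset_iff, ← Finset.singleton_subset_iff]
    exact (show (⟨{σ i}, q1 _⟩ : {S // q S}) ≤ φ S ↔ (⟨{i}, p1 i⟩ : {S // p S}) ≤ S by
      rw [← hσ, φ.le_iff_le])
  refine ⟨σ, hi, key, fun S hS => ?_⟩
  have := key (φ.symm ⟨_, hS⟩)
  rw [φ.apply_symm_apply] at this
  rw [Finset.image_injective hi this]
  exact (φ.symm ⟨_, hS⟩).2

end

def vP : Fin 10 → Fin 4 → ℤ := ![![2, -2, 2, 3], ![0, 2, -3, 3], ![1, 0, -3, 1], ![-3, -3, -3, -2], ![0, 3, -3, 1], ![-1, 2, 3, 3], ![-1, -1, 3, -2], ![3, 1, 3, -3], ![0, -2, -2, 2], ![3, 0, 2, 0]]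
def cP : Fin 10 → Fin 10 → Fin 4 → ℤ := ![
  ![![3, -10, 0, 0], ![20, 5, -4, 27], ![90, -19, -40, 36], ![-7, -15, 6, 4], ![0, 0, 0, 0], ![-6, -8, 14, 9], ![4, -35, 127, 16], ![7, -3, 8, 1], ![-3, -16, -6, 30], ![22, -20, -9, -6]],
  ![![20, 5, -4, 27], ![14, 15, 1, 8], ![10, 3, -5, 2], ![-10, -1, -2, 7], ![0, 22, -16, 11], ![18, 16, 3, 29], ![0, 0, 0, 0], ![0, 0, 0, 0], ![-24, -18, -7, 65], ![92, 51, -9, 43]],
  ![![90, -19, -40, 36], ![10, 3, -5, 2], ![10, -2, -5, 3], ![6, 1, -12, -9], ![36, 12, -20, -5], ![0, 0, 0, 0], ![0, 0, 0, 0], ![105, -34, -54, -37], ![18, -16, -11, -3], ![10, 1, -4, 0]],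
  ![![-7, -15, 6, 4], ![-10, -1, -2, 7], ![6, 1, -12, -9], ![-4, 3, -2, -3], ![-11, 10, 0, -9], ![-41, 2, 2, 12], ![-3, 0, 1, -2], ![-4, 5, -1, -10], ![-21, -34, -19, 29], ![52, -50, -24, -21]],
  ![![0, 0, 0, 0], ![0, 22, -16, 11], ![36, 12, -20, -5], ![-11, 10, 0, -9], ![-13, 20, 5, -12], ![21, 61, 9, 14], ![-111, 150, 32, -99], ![14, 15, -2, 0], ![0, 0, 0, 0], ![22, 18, -1, 7]],
  ![![-6, -8, 14, 9], ![18, 16, 3, 29], ![0, 0, 0, 0], ![-41, 2, 2, 12], ![21, 61, 9, 14], ![-16, 17, 9, -6], ![-22, 25, 8, -15], ![1, 88, 85, -14], ![-175, -90, -2, 195], ![47, 48, 14, 26]],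
  ![![4, -35, 127, 16], ![0, 0, 0, 0], ![0, 0, 0, 0], ![-3, 0, 1, -2], ![-111, 150, 32, -99], ![-22, 25, 8, -15], ![-4, 2, 24, -3], ![-15, 22, 30, -16], ![0, 0, 0, 0], ![0, 0, 0, 0]],
  ![![7, -3, 8, 1], ![0, 0, 0, 0], ![105, -34, -54, -37], ![-4, 5, -1, -10], ![14, 15, -2, 0], ![1, 88, 85, -14], ![-15, 22, 30, -16], ![11, 4, -2, -7], ![0, 0, 0, 0], ![5, 1, -1, 0]],
  ![![-3, -16, -6, 30], ![-24, -18, -7, 65], ![18, -16, -11, -3], ![-21, -34, -19, 29], ![0, 0, 0, 0], ![-175, -90, -2, 195], ![0, 0, 0, 0], ![0, 0, 0, 0], ![23, -36, -23, 33], ![36, -35, -16, -13]],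
  ![![22, -20, -9, -6], ![92, 51, -9, 43], ![10, 1, -4, 0], ![52, -50, -24, -21], ![22, 18, -1, 7], ![47, 48, 14, 26], ![0, 0, 0, 0], ![5, 1, -1, 0], ![36, -35, -16, -13], ![29, -1, -7, -2]]]
def wP : Fin 9 → Fin 10 → ℤ := ![
  ![40, -41, 0, 0, 50, -7, 0, 0, -13, -29],
  ![0, 6, -3, -1, -2, -3, 3, 0, 0, 0],
  ![0, 10, -1, 0, -8, -1, 0, 6, 0, -6],
  ![0, -7, 13, 0, -1, 4, 0, -3, -6, 0],
  ![0, 0, 23, -21, 0, -11, 31, -10, 0, -12],
  ![0, -46, -59, -16, 66, -11, 0, 0, 66, 0],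
  ![-38, 0, -15, -37, 0, -9, 29, 0, 70, 0],
  ![-14, 0, -3, 0, 0, -1, 6, -20, 0, 32],
  ![0, 0, -4, -5, 0, 0, -1, 12, 14, -16]]
def aP : Fin 4 → Fin 4 → ℤ := ![![45, -75, 30, 0], ![15, 30, 10, -55], ![27, 54, -4, -44], ![-75, 15, 5, 55]]
def vQ : Fin 10 → Fin 4 → ℤ := ![![-2, -2, -2, -3], ![-3, -2, 2, 2], ![1, -1, -3, 2], ![-3, -1, 0, 2], ![1, 3, -2, -1], ![-2, -1, 2, -3], ![-1, 0, -2, -2], ![0, 1, -3, -2], ![-1, -3, 0, -1], ![3, 2, -2, 1]]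
def cQ : Fin 10 → Fin 10 → Fin 4 → ℤ := ![
  ![![3, -2, -2, -4], ![-5, -6, 0, -1], ![-9, -53, -35, 9], ![-10, -5, -5, 1], ![0, 0, 0, 0], ![-10, 4, -1, -4], ![-31, 20, -7, -9], ![0, 0, -1, -1], ![20, -26, -4, -19], ![20, -10, -2, -15]],
  ![![-5, -6, 0, -1], ![-2, 1, 7, 4], ![7, -8, 4, 10], ![-5, -6, -3, 6], ![-23, 64, 45, 16], ![-9, -6, 14, -3], ![0, 0, 0, 0], ![0, 0, 0, 0], ![18, -18, 15, 8], ![2, 19, 16, 24]],
  ![![-9, -53, -35, 9], ![7, -8, 4, 10], ![-3, -1, -11, 8], ![-12, 1, -16, 19], ![-7, 11, -11, 11], ![0, 0, 0, 0], ![0, 0, 0, 0], ![2, -1, -5, -1], ![35, -56, -27, -13], ![0, 1, -1, 2]],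
  ![![-10, -5, -5, 1], ![-5, -6, -3, 6], ![-12, 1, -16, 19], ![-8, -4, -4, 1], ![-5, 6, 2, 0], ![-13, 6, -1, -3], ![-9, 6, -2, -2], ![-13, 9, -11, 3], ![-38, -83, -47, 30], ![-5, 16, -3, 24]],
  ![![0, 0, 0, 0], ![-23, 64, 45, 16], ![-7, 11, -11, 11], ![-5, 6, 2, 0], ![-3, 7, -2, 5], ![-2, 11, 10, 1], ![-25, 19, -5, -7], ![-6, 7, -6, -2], ![0, 0, 0, 0], ![5, 8, -5, -1]],
  ![![-10, 4, -1, -4], ![-9, -6, 14, -3], ![0, 0, 0, 0], ![-13, 6, -1, -3], ![-2, 11, 10, 1], ![-8, 5, -1, -3], ![-13, 10, -2, -5], ![6, 1, 0, -14], ![76, -70, 83, -25], ![16, 12, 22, -7]],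
  ![![-31, 20, -7, -9], ![0, 0, 0, 0], ![0, 0, 0, 0], ![-9, 6, -2, -2], ![-25, 19, -5, -7], ![-13, 10, -2, -5], ![-20, 14, -5, -6], ![-13, 9, -4, -4], ![0, 0, 0, 0], ![0, 0, 0, 0]],
  ![![0, 0, -1, -1], ![0, 0, 0, 0], ![2, -1, -5, -1], ![-13, 9, -11, 3], ![-6, 7, -6, -2], ![6, 1, 0, -14], ![-13, 9, -4, -4], ![2, 1, -4, -2], ![0, 0, 0, 0], ![6, -1, -2, -5]],
  ![![20, -26, -4, -19], ![18, -18, 15, 8], ![35, -56, -27, -13], ![-38, -83, -47, 30], ![0, 0, 0, 0], ![76, -70, 83, -25], ![0, 0, 0, 0], ![0, 0, 0, 0], ![19, -14, 7, -4], ![83, -52, 39, 3]],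
  ![![20, -10, -2, -15], ![2, 19, 16, 24], ![0, 1, -1, 2], ![-5, 16, -3, 24], ![5, 8, -5, -1], ![16, 12, 22, -7], ![0, 0, 0, 0], ![6, -1, -2, -5], ![83, -52, 39, 3], ![3, 2, 0, 1]]]
def wQ : Fin 9 → Fin 10 → ℤ := ![
  ![14, -1, 0, 0, 14, -4, -3, -20, 0, 0],
  ![-7, 4, 0, -7, 0, -5, 33, -18, 0, 0],
  ![0, 10, -3, -8, -1, -5, 0, 7, 0, 0],
  ![0, 0, 84, -23, 0, 66, -23, 0, -67, -37],
  ![-1, 0, 1, -1, 0, 0, 7, -5, -1, 0],
  ![0, 0, 0, -1, 18, -6, -13, 0, 13, -11],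
  ![-4, 0, -2, 0, -1, -2, 6, 0, 3, 0],
  ![-4, -3, 0, 0, 0, -2, 27, -20, 0, 2],
  ![-8, 0, 0, 0, -1, 0, -2, 10, 5, -4]]
def aQ : Fin 4 → Fin 4 → ℤ := ![![-69, -42, 117, -15], ![35, 34, -53, -40], ![-92, 17, 83, -20], ![16, -22, -43, 13]]

def non : Fin 9 → Fin 10 × Fin 10 := ![(0, 4), (1, 6), (1, 7), (2, 5), (2, 6), (4, 8), (6, 8), (6, 9), (7, 8)]

def Adj (i j : Fin 10) : Prop := ∀ t, non t ≠ (i, j) ∧ non t ≠ (j, i)

instance : DecidableRel Adj := fun _ _ => by unfold Adj; infer_instance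

lemma pairs (v : Fin 10 → Fin 4 → ℤ) (c : Fin 10 → Fin 10 → Fin 4 → ℤ) (w : Fin 9 → Fin 10 → ℤ)
    (h1 : ∀ i j, Adj i j → ∀ k, k ∈ ({i, j} : Finset _) ↔ ∀ m, c i j ⬝ᵥ v m ≤ c i j ⬝ᵥ v k)
    (h2 : ∀ t, ∑ i, w t i = 0 ∧ (∀ k, ∑ i, w t i * v i k = 0) ∧
      (∀ i, i ∉ ({(non t).1, (non t).2} : Finset _) → w t i ≤ 0) ∧
      ∃ i, i ∉ ({(non t).1, (non t).2} : Finset _) ∧ w t i < 0) (i j : Fin 10) :
    Good v {i, j} ↔ Adj i j := by
  refine ⟨fun h t => ?_, fun h => good_of _ (h1 i j h)⟩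
  have := not_good (w t) (Finset.mem_insert_self _ _) (h2 t).1 (h2 t).2.1 (h2 t).2.2.1 (h2 t).2.2.2
  exact ⟨fun e => this (by rwa [e]), fun e => this (by rwa [e, Finset.pair_comm])⟩

lemma pairsP : ∀ i j, Good vP {i, j} ↔ Adj i j :=
  pairs vP cP wP (by decide +kernel) (by decide +kernel)

lemma pairsQ : ∀ i j, Good vQ {i, j} ↔ Adj i j :=
  pairs vQ cQ wQ (by decide +kernel) (by decide +kernel)

set_option synthInstance.maxSize 2000 in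
lemma asym (σ : Fin 10 → Fin 10) (hi : Function.Injective σ) (h : ∀ i j, Adj (σ i) (σ j) → Adj i j)
    (i : Fin 10) : σ i = i := by
  have key : ∀ a6 a1, ¬ Adj a6 a1 → ∀ a2, ¬ Adj a6 a2 → a2 ≠ a1 → ∀ a8, ¬ Adj a6 a8 → a8 ≠ a1 →
      a8 ≠ a2 → ∀ a9, ¬ Adj a6 a9 → a9 ≠ a1 → a9 ≠ a2 → a9 ≠ a8 → ∀ a7, ¬ Adj a1 a7 → ¬ Adj a8 a7 →
      a7 ≠ a6 → ∀ a4, ¬ Adj a8 a4 → a4 ≠ a6 → a4 ≠ a7 → ∀ a5, ¬ Adj a2 a5 → a5 ≠ a6 → ∀ a0,
      ¬ Adj a4 a0 → a0 ≠ a8 → a0 = 0 ∧ a1 = 1 ∧ a2 = 2 ∧ a4 = 4 ∧ a5 = 5 ∧ a6 = 6 ∧ a7 = 7 ∧ a8 = 8 ∧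
        a9 = 9 := by decide +kernel
  have n : ∀ i j, ¬ Adj i j → ¬ Adj (σ i) (σ j) := fun i j a b => a (h i j b)
  have d : ∀ i j, i ≠ j → σ i ≠ σ j := fun i j a => hi.ne a
  obtain ⟨a0, a1, a2, a4, a5, a6, a7, a8, a9⟩ := key (σ 6) (σ 1) (n _ _ (by decide)) (σ 2)
    (n _ _ (by decide)) (d _ _ (by decide)) (σ 8) (n _ _ (by decide)) (d _ _ (by decide))
    (d _ _ (by decide)) (σ 9) (n _ _ (by decide)) (d _ _ (by decide)) (d _ _ (by decide))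
    (d _ _ (by decide)) (σ 7) (n _ _ (by decide)) (n _ _ (by decide)) (d _ _ (by decide)) (σ 4)
    (n _ _ (by decide)) (d _ _ (by decide)) (d _ _ (by decide)) (σ 5) (n _ _ (by decide))
    (d _ _ (by decide)) (σ 0) (n _ _ (by decide)) (d _ _ (by decide))
  have hj : ∀ j, j ≠ 3 → σ j = j := fun j hj => by
    fin_cases j <;> first | assumption | exact absurd rfl hj
  by_cases h3 : i = 3
  · subst h3
    by_contra hne
    exact hne (hi (hj _ hne))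
  · exact hj i h3

def K (S : Finset (Fin 10)) : Prop := S = ∅ ∨ ∃ i j, Adj i j ∧ S = {i, j}

lemma adj_self : ∀ i, Adj i i := by decide

lemma K_pair {i j : Fin 10} (h : K {i, j}) : Adj i j := by
  rcases h with h | ⟨a, b, h, e⟩
  · simp at h
  · exact (pairsP i j).1 (e ▸ (pairsP a b).2 h)

lemma skel (v : Fin 10 → Fin 4 → ℤ) (hp : ∀ i j, Good v {i, j} ↔ Adj i j)
    (h : ∀ i j k, i ≠ j → i ≠ k → j ≠ k → ∃ a b,
      (v j a - v i a) * (v k b - v i b) ≠ (v j b - v i b) * (v k a - v i a)) :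
    Nonempty ({S // K S} ≃o Skel 1 (hull v Finset.univ)) := by
  have hK : ∀ S, K S ↔ Good v S ∧ S.card ≤ 2 := fun S => by
    constructor
    · rintro (rfl | ⟨i, j, h, rfl⟩)
      · exact ⟨Or.inl rfl, by simp⟩
      · exact ⟨(hp i j).2 h, Finset.card_le_two⟩
    rintro ⟨h1, h2⟩
    rcases (by omega : S.card = 0 ∨ S.card = 1 ∨ S.card = 2) with h | h | h
    · exact Or.inl (Finset.card_eq_zero.1 h)
    · obtain ⟨a, rfl⟩ := Finset.card_eq_one.1 h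
      exact Or.inr ⟨a, a, adj_self a, by simp⟩
    · obtain ⟨a, b, -, rfl⟩ := Finset.card_eq_two.1 h
      exact Or.inr ⟨a, b, (hp a b).1 h1, rfl⟩
  refine iso _ _ (fun F => ?_) fun S hS => ((hK S).1 hS).1
  rw [mem_setOf_eq, exposed_iff]
  constructor
  · rintro ⟨⟨S, hS, rfl⟩, hd⟩
    exact ⟨S, (hK S).2 ⟨hS, (dim_iff h S).1 hd⟩, rfl⟩
  · rintro ⟨S, hS, rfl⟩
    exact ⟨⟨S, ((hK S).1 hS).1, rfl⟩, (dim_iff h S).2 ((hK S).1 hS).2⟩

theorem result : ∃ (k d m : ℕ) (P P' : Set (E m)), IsPolytope d P ∧ IsPolytope d P' ∧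
    IsEmpty (CE (Face P) (Face P')) ∧ Nonempty (CE (Skel k P) (Skel k P')) ∧
    ∀ (m' : ℕ) (Q : Set (E m')), IsPolytope d Q → Nonempty (CE (Skel k Q) (Skel k P)) →
      Extends k Q := by
  obtain ⟨sP⟩ := skel vP pairsP (by decide +kernel)
  obtain ⟨sQ⟩ := skel vQ pairsQ (by decide +kernel)
  refine ⟨1, 4, 4, _, _, poly vP aP (-165) (by simp) (by decide +kernel),
    poly vQ aQ (-219) (by simp) (by decide +kernel), ⟨fun φ => ?_⟩, ⟨sP.symm.trans sQ⟩, ?_⟩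
  · obtain ⟨fP⟩ := iso _ _ (exposed_iff (v := vP)) fun _ h => h
    obtain ⟨fQ⟩ := iso _ _ (exposed_iff (v := vQ)) fun _ h => h
    obtain ⟨σ, hi, h1, h2⟩ := perm (Or.inl rfl) (Or.inl rfl)
      (fun i => by simpa using (pairsQ i i).2 (adj_self i))
      (fun i => by simpa using (pairsP i i).2 (adj_self i)) ((fQ.trans φ.symm).trans fP.symm)
    have := asym σ hi fun i j h => (pairsQ i j).1 (h2 _ (by simpa using (pairsP _ _).2 h))
    refine not_good ![3, 0, -2, 1, 0, -1, -3, 0, 0, 2] (S := {0, 3, 9}) (i0 := 0) (by simp) (by decide)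
      (by decide) (by decide) (by decide) (h2 _ ?_)
    simpa [this] using good_of (v := vP) ![23, -25, -9, -9] (S := {0, 3, 9}) (by decide +kernel)
  rintro m' Q - ⟨ψ⟩ φ
  refine ⟨OrderIso.refl _, fun F => ?_⟩
  let χ := ψ.trans sP.symm
  obtain ⟨σ, hi, h1, h2⟩ := perm (p := K) (q := K) (Or.inl rfl) (Or.inl rfl)
    (fun i => Or.inr ⟨i, i, adj_self i, by simp⟩) (fun i => Or.inr ⟨i, i, adj_self i, by simp⟩)
    ((χ.symm.trans φ).trans χ)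
  have := asym σ hi fun i j h => K_pair (h2 _ (Or.inr ⟨_, _, h, by simp⟩))
  have h3 := h1 (χ F)
  rw [show σ = id from funext this, Finset.image_id] at h3
  have h4 : χ (φ (χ.symm (χ F))) = χ F := Subtype.ext h3
  rw [χ.symm_apply_apply] at h4
  rw [χ.injective h4]; rfl

end Pool.Agent.Results.MP_745574_co.Example
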